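import Mathlib

/-!
# MP_758103_lc : nearest neighbor complexity is at most twice the linear decision list depth

Definitions and the construction, for linear decision lists of any depth.

Idea: all anchors lie near a base point `u`.  A test `w·x ≥ b` whose hyperplane passes through `u` (after a
small tilt) is realised by the one anchor `u + λ w` at every small scale `λ`.  If a coordinate of `u` is `1/2`,
every other test is realised at every small scale by TWO anchors `u + λ w ± (1 + O(λ)) e_j` (a correction of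
the same size at all vertices, since `|x_j - 1/2| = 1/2`).  The scales of the tests form a geometric
progression.
-/

open Finset

namespace Pool.Agent.H24NN

/-- points of `ℝ^n` with the Euclidean distance -/
abbrev E (n : ℕ) := EuclideanSpace ℝ (Fin n)

/-- the vertex `x` of the cube as a point of Euclidean space -/
noncomputable def vtx {n : ℕ} (x : Fin n → Bool) : E n :=
  WithLp.toLp 2 (fun i => if x i then (1 : ℝ) else 0)

/-- `(P, N)` is a nearest neighbor representation of `f` -/
def IsNNRep {n : ℕ} (f : (Fin n → Bool) → Bool) (P N : Finset (E n)) : Prop :=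
  Disjoint P N ∧
  (∀ x, f x = true → ∃ p ∈ P, ∀ q ∈ N, dist (vtx x) p < dist (vtx x) q) ∧
  (∀ x, f x = false → ∃ q ∈ N, ∀ p ∈ P, dist (vtx x) q < dist (vtx x) p)

/-- the nearest neighbor complexity: the minimal number of anchors -/
noncomputable def NN {n : ℕ} (f : (Fin n → Bool) → Bool) : ℕ :=
  sInf {k | ∃ P N : Finset (E n), IsNNRep f P N ∧ (P ∪ N).card = k}

/-- a linear decision list of depth `m`: weights, biases, output bits -/
structure LDList (n m : ℕ) where
  /-- weights -/
  w : Fin m → Fin n → ℝ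
  /-- biases -/
  b : Fin m → ℝ
  /-- output bits of the tests -/
  c : Fin m → Bool
  /-- output bit if no test is satisfied -/
  d : Bool

/-- the linear form `w^T x` on the vertex `x` -/
def lin {n : ℕ} (w : Fin n → ℝ) (x : Fin n → Bool) : ℝ := ∑ j, w j * (if x j then 1 else 0)

/-- the list `L` computes `f` -/
def LDList.Computes {n m : ℕ} (L : LDList n m) (f : (Fin n → Bool) → Bool) : Prop :=
  ∀ x, (∀ i, L.b i ≤ lin (L.w i) x → (∀ j, j < i → ¬ L.b j ≤ lin (L.w j) x) → f x = L.c i) ∧
    ((∀ i, ¬ L.b i ≤ lin (L.w i) x) → f x = L.d)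

/-- the smallest depth of a linear decision list computing `f` -/
noncomputable def LDL {n : ℕ} (f : (Fin n → Bool) → Bool) : ℕ :=
  sInf {m | ∃ L : LDList n m, L.Computes f}

/-! ### from scores to nearest neighbor representations -/

/-- abstract form: labelled families of anchors such that at every vertex an anchor of a family with the
right label beats all anchors of the other families -/
lemma rep_of_families {n : ℕ} (f : (Fin n → Bool) → Bool) {T : Type} [Fintype T] [DecidableEq T]
    (A : T → Finset (E n)) (col : T → Bool)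
    (h : ∀ x, ∃ t, col t = f x ∧ ∃ a ∈ A t, ∀ t', t' ≠ t → ∀ a' ∈ A t',
      dist (vtx x) a < dist (vtx x) a') :
    NN f ≤ ∑ t, (A t).card := by
  classical
  choose t ht a ha hwin using h
  set P : Finset (E n) := (Finset.univ.filter (fun x => f x = true)).image a with hP
  set N : Finset (E n) := (Finset.univ.filter (fun x => f x = false)).image a with hN
  have hne : ∀ x y, f x ≠ f y → t y ≠ t x := by
    intro x y hxy he
    apply hxy
    rw [← ht x, ← ht y, he]
  have hlt : ∀ x y, f x ≠ f y → dist (vtx x) (a x) < dist (vtx x) (a y) := fun x y hxy =>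
    hwin x (t y) (hne x y hxy) (a y) (ha y)
  have hrep : IsNNRep f P N := by
    refine ⟨?_, ?_, ?_⟩
    · rw [Finset.disjoint_left]
      intro p hp hq
      rw [hP, Finset.mem_image] at hp
      rw [hN, Finset.mem_image] at hq
      obtain ⟨x, hx, rfl⟩ := hp
      obtain ⟨y, hy, hxy⟩ := hq
      have hfx : f x = true := (Finset.mem_filter.1 hx).2
      have hfy : f y = false := (Finset.mem_filter.1 hy).2
      have h1 := hlt x y (by rw [hfx, hfy]; decide)
      rw [hxy] at h1
      exact lt_irrefl _ h1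
    · intro x hx
      refine ⟨a x, Finset.mem_image.2 ⟨x, by simp [hx], rfl⟩, ?_⟩
      intro q hq
      rw [hN, Finset.mem_image] at hq
      obtain ⟨y, hy, rfl⟩ := hq
      have hfy : f y = false := (Finset.mem_filter.1 hy).2
      exact hlt x y (by rw [hx, hfy]; decide)
    · intro x hx
      refine ⟨a x, Finset.mem_image.2 ⟨x, by simp [hx], rfl⟩, ?_⟩
      intro q hq
      rw [hP, Finset.mem_image] at hq
      obtain ⟨y, hy, rfl⟩ := hq
      have hfy : f y = true := (Finset.mem_filter.1 hy).2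
      exact hlt x y (by rw [hx, hfy]; decide)
  have hsub : P ∪ N ⊆ Finset.univ.biUnion A := by
    intro p hp
    rw [Finset.mem_union, hP, hN, Finset.mem_image, Finset.mem_image] at hp
    rcases hp with ⟨x, _, rfl⟩ | ⟨x, _, rfl⟩
    · exact Finset.mem_biUnion.2 ⟨t x, Finset.mem_univ _, ha x⟩
    · exact Finset.mem_biUnion.2 ⟨t x, Finset.mem_univ _, ha x⟩
  calc NN f ≤ (P ∪ N).card := Nat.sInf_le ⟨P, N, hrep, rfl⟩
    _ ≤ (Finset.univ.biUnion A).card := Finset.card_le_card hsub
    _ ≤ ∑ t, (A t).card := Finset.card_biUnion_le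

/-- the score of the anchor `a` relative to the base `u` at the vertex `x` -/
noncomputable def sc {n : ℕ} (u a : E n) (x : Fin n → Bool) : ℝ :=
  dist (vtx x) u ^ 2 - dist (vtx x) a ^ 2

lemma sc_self {n : ℕ} (u : E n) (x : Fin n → Bool) : sc u u x = 0 := sub_self _

lemma dist_lt_of_sc_lt {n : ℕ} {u a a' : E n} {x : Fin n → Bool} (h : sc u a' x < sc u a x) :
    dist (vtx x) a < dist (vtx x) a' := by
  unfold sc at h
  have h1 : dist (vtx x) a ^ 2 < dist (vtx x) a' ^ 2 := by linarith
  exact lt_of_pow_lt_pow_left₀ 2 dist_nonneg h1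

lemma sc_add {n : ℕ} (u v : E n) (x : Fin n → Bool) :
    sc u (u + v) x = 2 * inner ℝ v (vtx x - u) - ‖v‖ ^ 2 := by
  unfold sc
  rw [dist_eq_norm, dist_eq_norm]
  have h1 : vtx x - (u + v) = (vtx x - u) - v := by abel
  rw [h1]
  generalize vtx x - u = y
  rw [@norm_sub_sq_real, real_inner_comm]
  ring

/-- the test `⟪w, x⟫ ≥ b` is realised at all small scales by `k` anchors around `u` -/
def Realizes {n : ℕ} (u w : E n) (b : ℝ) (k : ℕ) (ε : ℝ) : Prop :=
  ∃ l0 : ℝ, 0 < l0 ∧ ∀ l : ℝ, 0 < l → l ≤ l0 → ∃ S : Finset (E n), S.card ≤ k ∧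
    ∀ x, (∃ a ∈ S, 2 * l * (inner ℝ w (vtx x) - b) - ε * l ≤ sc u a x) ∧
      ∀ a ∈ S, sc u a x ≤ 2 * l * (inner ℝ w (vtx x) - b) + ε * l

/-- a decision list with margins all of whose tests are realised around `u` -/
lemma nn_le_of_realizes {n m : ℕ} (f : (Fin n → Bool) → Bool) (w : Fin m → E n) (b : Fin m → ℝ)
    (c : Fin m → Bool) (d : Bool) {μ : ℝ} (hμ : 0 < μ)
    (hmar : ∀ i x, μ ≤ |inner ℝ (w i) (vtx x) - b i|)
    (h1 : ∀ x i, 0 < inner ℝ (w i) (vtx x) - b i →
      (∀ j, j < i → inner ℝ (w j) (vtx x) - b j < 0) → f x = c i)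
    (h2 : ∀ x, (∀ i, inner ℝ (w i) (vtx x) - b i < 0) → f x = d)
    (k : Fin m → ℕ) (u : E n) (hR : ∀ i, Realizes u (w i) (b i) (k i) μ) :
    NN f ≤ 1 + ∑ i, k i := by
  classical
  choose l0 hl0 hS using hR
  -- a common scale
  obtain ⟨Λ, hΛ, hΛl⟩ : ∃ Λ : ℝ, 0 < Λ ∧ ∀ i, Λ ≤ l0 i := by
    rcases isEmpty_or_nonempty (Fin m) with hm | hm
    · exact ⟨1, one_pos, fun i => (hm.false i).elim⟩
    · obtain ⟨i0, hi0⟩ := Finite.exists_min l0
      exact ⟨l0 i0, hl0 i0, hi0⟩
  -- a bound for the linear forms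
  obtain ⟨M, hM, hMb⟩ : ∃ M : ℝ, 0 < M ∧ ∀ i x, |inner ℝ (w i) (vtx x) - b i| ≤ M := by
    rcases isEmpty_or_nonempty (Fin m) with hm | hm
    · exact ⟨1, one_pos, fun i => (hm.false i).elim⟩
    · obtain ⟨p, hp⟩ := Finite.exists_max
        (fun p : Fin m × (Fin n → Bool) => |inner ℝ (w p.1) (vtx p.2) - b p.1|)
      refine ⟨|inner ℝ (w p.1) (vtx p.2) - b p.1| + 1, by positivity, fun i x => ?_⟩
      have := hp (i, x)
      simp only at this
      linarith
  set κ : ℝ := μ / (2 * M + 2 * μ) with hκ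
  have hκ0 : 0 < κ := by positivity
  have hκ1 : κ * (2 * M + 2 * μ) = μ := by
    rw [hκ]
    field_simp
  have hκ2 : κ ≤ 1 := by
    rw [hκ, div_le_one (by positivity)]
    linarith
  set lam : Fin m → ℝ := fun i => Λ * κ ^ (i : ℕ) with hlam
  have hlam0 : ∀ i, 0 < lam i := fun i => by simp only [hlam]; positivity
  have hlam1 : ∀ i, lam i ≤ l0 i := by
    intro i
    have h3 : κ ^ (i : ℕ) ≤ 1 := pow_le_one₀ hκ0.le hκ2
    calc lam i = Λ * κ ^ (i : ℕ) := rfl
      _ ≤ Λ * 1 := mul_le_mul_of_nonneg_left h3 hΛ.le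
      _ = Λ := mul_one _
      _ ≤ l0 i := hΛl i
  have hlam2 : ∀ i j, i < j → lam j ≤ κ * lam i := by
    intro i j hij
    have h3 : κ ^ (j : ℕ) ≤ κ ^ ((i : ℕ) + 1) := pow_le_pow_of_le_one hκ0.le hκ2 hij
    calc lam j = Λ * κ ^ (j : ℕ) := rfl
      _ ≤ Λ * κ ^ ((i : ℕ) + 1) := mul_le_mul_of_nonneg_left h3 hΛ.le
      _ = κ * lam i := by simp only [hlam]; ring
  choose S hScard hSs using fun i => hS i (lam i) (hlam0 i) (hlam1 i)
  let A : Option (Fin m) → Finset (E n) := fun t => Option.elim t {u} S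
  let col : Option (Fin m) → Bool := fun t => Option.elim t d c
  have hlow : ∀ i x, 0 < inner ℝ (w i) (vtx x) - b i → ∃ a ∈ S i, μ * lam i ≤ sc u a x := by
    intro i x hx
    obtain ⟨⟨a, ha, ha'⟩, _⟩ := hSs i x
    refine ⟨a, ha, le_trans ?_ ha'⟩
    have h3 := hmar i x
    rw [abs_of_pos hx] at h3
    have h4 := hlam0 i
    nlinarith
  have hneg : ∀ i x, inner ℝ (w i) (vtx x) - b i < 0 → ∀ a ∈ S i, sc u a x < 0 := by
    intro i x hx a ha
    refine lt_of_le_of_lt ((hSs i x).2 a ha) ?_
    have h3 := hmar i x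
    rw [abs_of_neg hx] at h3
    have h4 := hlam0 i
    nlinarith
  have hup : ∀ i j x, i < j → ∀ a ∈ S j, sc u a x < μ * lam i := by
    intro i j x hij a ha
    refine lt_of_le_of_lt ((hSs j x).2 a ha) ?_
    have h3 := (le_abs_self _).trans (hMb j x)
    have h4 := hlam0 i
    have h5 := hlam0 j
    have h6 := hlam2 i j hij
    calc 2 * lam j * (inner ℝ (w j) (vtx x) - b j) + μ * lam j
        ≤ 2 * lam j * M + μ * lam j := by
          have := mul_le_mul_of_nonneg_left h3 (by positivity : 0 ≤ 2 * lam j)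
          linarith
      _ = lam j * (2 * M + μ) := by ring
      _ ≤ κ * lam i * (2 * M + μ) := mul_le_mul_of_nonneg_right h6 (by positivity)
      _ < κ * lam i * (2 * M + 2 * μ) := by
          apply mul_lt_mul_of_pos_left _ (by positivity)
          linarith
      _ = (κ * (2 * M + 2 * μ)) * lam i := by ring
      _ = μ * lam i := by rw [hκ1]
  have hmain : NN f ≤ ∑ t, (A t).card := by
    refine rep_of_families f A col fun x => ?_
    by_cases hx : ∃ i, 0 < inner ℝ (w i) (vtx x) - b i
    · -- the least satisfied test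
      obtain ⟨i, hi, hmin⟩ : ∃ i, 0 < inner ℝ (w i) (vtx x) - b i ∧
          ∀ j, j < i → inner ℝ (w j) (vtx x) - b j < 0 := by
        have hne : (Finset.univ.filter
            (fun i : Fin m => 0 < inner ℝ (w i) (vtx x) - b i)).Nonempty := by
          obtain ⟨i, hi⟩ := hx
          exact ⟨i, by simp only [Finset.mem_filter, Finset.mem_univ, true_and]; exact hi⟩
        refine ⟨(Finset.univ.filter (fun i : Fin m => 0 < inner ℝ (w i) (vtx x) - b i)).min' hne,
          ?_, ?_⟩
        · exact (Finset.mem_filter.1 (Finset.min'_mem _ hne)).2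
        · intro j hj
          by_contra hcon
          rw [not_lt] at hcon
          have h3 := hmar j x
          rw [abs_of_nonneg hcon] at h3
          have h4 : j ∈ Finset.univ.filter (fun i : Fin m => 0 < inner ℝ (w i) (vtx x) - b i) := by
            simp only [Finset.mem_filter, Finset.mem_univ, true_and]
            linarith
          exact absurd (Finset.min'_le _ j h4) (not_le.2 hj)
      obtain ⟨a, ha, ha'⟩ := hlow i x hi
      refine ⟨some i, (h1 x i hi hmin).symm, a, ha, ?_⟩
      intro t' ht' a' hat'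
      apply dist_lt_of_sc_lt (u := u)
      refine lt_of_lt_of_le ?_ ha'
      have h4 : 0 < μ * lam i := mul_pos hμ (hlam0 i)
      cases t' with
      | none =>
        have h5 : a' = u := by simpa [A] using hat'
        rw [h5, sc_self]
        exact h4
      | some j =>
        have hat'' : a' ∈ S j := hat'
        have hji : j ≠ i := fun h => ht' (by rw [h])
        rcases lt_or_gt_of_ne hji with h | h
        · exact (hneg j x (hmin j h) a' hat'').trans h4
        · exact hup i j x h a' hat''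
    · rw [not_exists] at hx
      have hneg' : ∀ i, inner ℝ (w i) (vtx x) - b i < 0 := by
        intro i
        have h3 := hmar i x
        have h4 := not_lt.1 (hx i)
        rw [abs_of_nonpos h4] at h3
        linarith
      refine ⟨none, (h2 x hneg').symm, u, by simp [A], ?_⟩
      intro t' ht' a' hat'
      apply dist_lt_of_sc_lt (u := u)
      rw [sc_self]
      cases t' with
      | none => exact absurd rfl ht'
      | some j => exact hneg j x (hneg' j) a' hat'
  refine hmain.trans ?_
  rw [Fintype.sum_option]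
  have h5 : (A none).card = 1 := by simp [A]
  rw [h5]
  exact Nat.add_le_add_left (Finset.sum_le_sum fun i _ => hScard i) 1

/-- one anchor suffices for a test whose hyperplane passes through `u` after a small tilt -/
lemma realizes_one {n : ℕ} {u w w' : E n} {b ε : ℝ} (hε : 0 < ε) (hu : inner ℝ w' u = b)
    (ht : ∀ x, |inner ℝ w' (vtx x) - inner ℝ w (vtx x)| ≤ ε / 4) : Realizes u w b 1 ε := by
  refine ⟨ε / (2 * (‖w'‖ ^ 2 + 1)), by positivity, fun l hl hl' => ⟨{u + l • w'}, by simp, ?_⟩⟩
  intro x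
  have h1 : sc u (u + l • w') x = 2 * l * (inner ℝ w' (vtx x) - b) - l ^ 2 * ‖w'‖ ^ 2 := by
    rw [sc_add, inner_smul_left, inner_sub_right, hu, norm_smul, mul_pow, Real.norm_eq_abs,
      sq_abs]
    simp only [conj_trivial]
    ring
  have h2 : l * ‖w'‖ ^ 2 ≤ ε / 2 := by
    rw [le_div_iff₀ (by positivity)] at hl'
    have := sq_nonneg ‖w'‖
    nlinarith
  have h3 : l ^ 2 * ‖w'‖ ^ 2 ≤ l * (ε / 2) := by
    calc l ^ 2 * ‖w'‖ ^ 2 = l * (l * ‖w'‖ ^ 2) := by ring
      _ ≤ _ := mul_le_mul_of_nonneg_left h2 hl.le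
  have h4 := abs_le.1 (ht x)
  have h5 : 0 ≤ l ^ 2 * ‖w'‖ ^ 2 := by positivity
  constructor
  · refine ⟨u + l • w', by simp, ?_⟩
    rw [h1]
    nlinarith [h4.1]
  · intro a ha
    rw [Finset.mem_singleton] at ha
    subst ha
    rw [h1]
    nlinarith [h4.2]

/-- two anchors suffice for every test if a coordinate of `u` is `1/2` -/
lemma realizes_two {n : ℕ} {u : E n} (j : Fin n) (hj : u j = 1 / 2) (w : E n) (b : ℝ) {ε : ℝ}
    (hε : 0 < ε) : Realizes u w b 2 ε := by
  classical
  set e : E n := EuclideanSpace.single j (1 : ℝ) with he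
  set κ : ℝ := b - inner ℝ w u with hκ
  set ω : ℝ := w j with hω
  set C : ℝ := ‖w‖ ^ 2 + 4 * κ ^ 2 + 4 * |ω * κ| with hC
  have hC0 : 0 ≤ C := by positivity
  set D : ℝ := 4 * (|ω| + |κ| + 1) with hD
  have hD0 : 0 < D := by positivity
  refine ⟨min (ε / (C + 1)) (1 / D), by positivity, fun l hl hl' => ?_⟩
  have hl1 : l ≤ ε / (C + 1) := hl'.trans (min_le_left _ _)
  have hl2 : l ≤ 1 / D := hl'.trans (min_le_right _ _)
  set τ : ℝ := 2 * l * κ with hτ
  set t : ℝ := 1 + τ with ht
  set a : ℝ → E n := fun σ => u + (l • w + (σ * t - 2 * l * ω) • e) with ha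
  have hin : ∀ v : E n, inner ℝ e v = v j := by
    intro v
    rw [he, EuclideanSpace.inner_single_left]
    simp
  have hen : ‖e‖ = 1 := by
    rw [he]
    simp
  -- the score of the anchor `a σ`, `σ = ± 1`
  have hsc : ∀ σ : ℝ, σ * σ = 1 → ∀ x, sc u (a σ) x =
      2 * l * (inner ℝ w (vtx x) - b) + τ - l ^ 2 * ‖w‖ ^ 2 +
        σ * (2 * (vtx x j - 1 / 2)) * t - 2 * l * ω * (2 * (vtx x j - 1 / 2)) - t ^ 2 +
        2 * l * ω * σ * t := by
    intro σ hσ x
    rw [ha, sc_add]
    have h1 : inner ℝ (l • w + (σ * t - 2 * l * ω) • e) (vtx x - u) =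
        l * (inner ℝ w (vtx x) - inner ℝ w u) +
          (σ * t - 2 * l * ω) * (vtx x j - 1 / 2) := by
      rw [inner_add_left, inner_smul_left, inner_smul_left, hin, inner_sub_right]
      simp only [conj_trivial, PiLp.sub_apply, hj]
    have h2 : ‖l • w + (σ * t - 2 * l * ω) • e‖ ^ 2 =
        l ^ 2 * ‖w‖ ^ 2 + 2 * (l * (σ * t - 2 * l * ω) * ω) + (σ * t - 2 * l * ω) ^ 2 := by
      rw [norm_add_sq_real, norm_smul, norm_smul, hen, inner_smul_left, inner_smul_right,
        real_inner_comm, hin, mul_pow, Real.norm_eq_abs, sq_abs, Real.norm_eq_abs, mul_one,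
        sq_abs]
      simp only [conj_trivial]
      ring
    rw [h1, h2]
    have h3 : inner ℝ w u = b - κ := by rw [hκ]; ring
    rw [h3, hτ]
    linear_combination (-t ^ 2) * hσ
  have hx2 : ∀ x : Fin n → Bool, 2 * (vtx x j - 1 / 2) = if x j then (1 : ℝ) else -1 := by
    intro x
    unfold vtx
    by_cases hxj : x j = true
    · simp [hxj]; norm_num
    · simp [hxj]
  have hτ1 : |τ| ≤ 1 / 2 := by
    rw [hτ, abs_mul, abs_of_pos (by positivity : 0 < 2 * l)]
    rw [le_div_iff₀ hD0] at hl2
    have h4 := abs_nonneg ω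
    have h5 := abs_nonneg κ
    nlinarith
  have hω1 : 2 * l * |ω| ≤ 1 / 2 := by
    rw [le_div_iff₀ hD0] at hl2
    have h4 := abs_nonneg ω
    have h5 := abs_nonneg κ
    nlinarith
  have ht0 : 0 < t := by
    rw [ht]
    linarith [(abs_le.1 hτ1).1]
  -- the error term
  have herr : ∀ ρ : ℝ, ρ * ρ = 1 →
      |(- (l ^ 2 * ‖w‖ ^ 2) - τ ^ 2 + 2 * l * ω * ρ * τ)| ≤ ε * l := by
    intro ρ hρ
    have hρ1 : |ρ| = 1 := by
      have h4 : |ρ| * |ρ| = 1 := by rw [← abs_mul, hρ, abs_one]
      nlinarith [abs_nonneg ρ]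
    have h5 : |2 * l * ω * ρ * τ| = 4 * l ^ 2 * |ω * κ| := by
      rw [hτ]
      have h6 : 2 * l * ω * ρ * (2 * l * κ) = (4 * l ^ 2) * (ρ * (ω * κ)) := by ring
      rw [h6, abs_mul (4 * l ^ 2), abs_mul ρ, hρ1, one_mul,
        abs_of_pos (by positivity : 0 < 4 * l ^ 2)]
    have h7 : |(- (l ^ 2 * ‖w‖ ^ 2) - τ ^ 2 + 2 * l * ω * ρ * τ)| ≤ l ^ 2 * C := by
      calc |(- (l ^ 2 * ‖w‖ ^ 2) - τ ^ 2 + 2 * l * ω * ρ * τ)|
          ≤ |(- (l ^ 2 * ‖w‖ ^ 2) - τ ^ 2)| + |2 * l * ω * ρ * τ| := abs_add_le _ _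
        _ = (l ^ 2 * ‖w‖ ^ 2 + τ ^ 2) + 4 * l ^ 2 * |ω * κ| := by
            rw [h5]
            congr 1
            rw [show - (l ^ 2 * ‖w‖ ^ 2) - τ ^ 2 = -(l ^ 2 * ‖w‖ ^ 2 + τ ^ 2) by ring, abs_neg,
              abs_of_nonneg (by positivity)]
        _ = l ^ 2 * C := by rw [hC, hτ]; ring
    refine h7.trans ?_
    have h8 : l * (C + 1) ≤ ε := (le_div_iff₀ (by positivity)).1 hl1
    nlinarith
  refine ⟨{a 1, a (-1)}, Finset.card_le_two, fun x => ?_⟩
  -- the right choice of the sign
  obtain ⟨ρ, hρ, hxρ⟩ : ∃ ρ : ℝ, (ρ = 1 ∨ ρ = -1) ∧ 2 * (vtx x j - 1 / 2) = ρ := by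
    rw [hx2]
    by_cases hxj : x j = true
    · exact ⟨1, Or.inl rfl, by simp [hxj]⟩
    · exact ⟨-1, Or.inr rfl, by simp [hxj]⟩
  have hρρ : ρ * ρ = 1 := by rcases hρ with rfl | rfl <;> norm_num
  have hbig : sc u (a ρ) x = 2 * l * (inner ℝ w (vtx x) - b) +
      (- (l ^ 2 * ‖w‖ ^ 2) - τ ^ 2 + 2 * l * ω * ρ * τ) := by
    rw [hsc ρ hρρ, hxρ, ht]
    linear_combination (1 + τ) * hρρ
  have hsmall : sc u (a (-ρ)) x ≤ sc u (a ρ) x := by
    rw [hsc ρ hρρ, hsc (-ρ) (by rw [neg_mul_neg, hρρ]), hxρ]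
    have h4 : -(1 / 2) ≤ 2 * l * ω * ρ := by
      have h5 : |2 * l * ω * ρ| ≤ 1 / 2 := by
        have hρ1 : |ρ| = 1 := by rcases hρ with rfl | rfl <;> simp
        rw [abs_mul, hρ1, mul_one, abs_mul, abs_of_pos (by positivity : 0 < 2 * l)]
        exact hω1
      exact (abs_le.1 h5).1
    nlinarith [mul_pos ht0 (by norm_num : (0 : ℝ) < 1)]
  have herr' := abs_le.1 (herr ρ hρρ)
  have hmem : ∀ y, y ∈ ({a 1, a (-1)} : Finset (E n)) → y = a ρ ∨ y = a (-ρ) := by
    intro y hy
    rw [Finset.mem_insert, Finset.mem_singleton] at hy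
    rcases hρ with rfl | rfl
    · exact hy
    · rw [neg_neg]
      exact hy.symm
  constructor
  · refine ⟨a ρ, ?_, ?_⟩
    · rw [Finset.mem_insert, Finset.mem_singleton]
      rcases hρ with rfl | rfl
      · exact Or.inl rfl
      · exact Or.inr rfl
    · rw [hbig]
      linarith [herr'.1]
  · intro y hy
    rcases hmem y hy with rfl | rfl
    · rw [hbig]
      linarith [herr'.2]
    · refine hsmall.trans ?_
      rw [hbig]
      linarith [herr'.2]

/-! ### linear decision lists -/

/-- the weight vector as a point of Euclidean space -/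
noncomputable def wv {n : ℕ} (w : Fin n → ℝ) : E n := WithLp.toLp 2 w

lemma inner_wv {n : ℕ} (w : Fin n → ℝ) (x : Fin n → Bool) :
    inner ℝ (wv w) (vtx x) = lin w x := by
  unfold wv vtx lin
  rw [PiLp.inner_apply]
  refine Finset.sum_congr rfl fun j _ => ?_
  simp only [RCLike.inner_apply, conj_trivial]
  rw [mul_comm]

/-- a list with margins: lower the biases a little -/
lemma exists_margin {n m : ℕ} (L : LDList n m) :
    ∃ η : ℝ, 0 < η ∧ ∀ i x, (L.b i ≤ lin (L.w i) x → η ≤ lin (L.w i) x - (L.b i - η)) ∧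
      (¬ L.b i ≤ lin (L.w i) x → lin (L.w i) x - (L.b i - η) ≤ -η) := by
  classical
  obtain ⟨δ, hδ, hδm⟩ : ∃ δ : ℝ, 0 < δ ∧ ∀ i x, ¬ L.b i ≤ lin (L.w i) x →
      lin (L.w i) x + δ ≤ L.b i := by
    set S : Finset ℝ := ((Finset.univ : Finset (Fin m × (Fin n → Bool))).filter
      (fun p => ¬ L.b p.1 ≤ lin (L.w p.1) p.2)).image
        (fun p => L.b p.1 - lin (L.w p.1) p.2) with hS
    rcases S.eq_empty_or_nonempty with h | h
    · refine ⟨1, one_pos, fun i x hix => ?_⟩
      exfalso
      have h1 : L.b i - lin (L.w i) x ∈ S := by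
        rw [hS]
        exact Finset.mem_image.2 ⟨(i, x), Finset.mem_filter.2 ⟨Finset.mem_univ _, hix⟩, rfl⟩
      rw [h] at h1
      exact absurd h1 (Finset.notMem_empty _)
    · refine ⟨S.min' h, ?_, fun i x hix => ?_⟩
      · have h3 : S.min' h ∈ S := Finset.min'_mem S h
        obtain ⟨p, hp, hp'⟩ := Finset.mem_image.1 h3
        have h2 := not_le.1 (Finset.mem_filter.1 hp).2
        rw [← hp']
        linarith
      · have h1 : L.b i - lin (L.w i) x ∈ S := by
          rw [hS]
          exact Finset.mem_image.2 ⟨(i, x), Finset.mem_filter.2 ⟨Finset.mem_univ _, hix⟩, rfl⟩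
        have h2 := Finset.min'_le S _ h1
        linarith
  refine ⟨δ / 2, by positivity, fun i x => ⟨fun h => by linarith, fun h => ?_⟩⟩
  have := hδm i x h
  linarith

/-- the general bound: choose a base point `u` -/
lemma nn_le_general {n m : ℕ} {f : (Fin n → Bool) → Bool} {L : LDList n m} (hL : L.Computes f)
    {η : ℝ} (hη : 0 < η) (hmar : ∀ i x, (L.b i ≤ lin (L.w i) x → η ≤ lin (L.w i) x - (L.b i - η)) ∧
      (¬ L.b i ≤ lin (L.w i) x → lin (L.w i) x - (L.b i - η) ≤ -η))
    (k : Fin m → ℕ) (u : E n) (hR : ∀ i, Realizes u (wv (L.w i)) (L.b i - η) (k i) η) :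
    NN f ≤ 1 + ∑ i, k i := by
  have hiff : ∀ i x, 0 < inner ℝ (wv (L.w i)) (vtx x) - (L.b i - η) → L.b i ≤ lin (L.w i) x := by
    intro i x h
    rw [inner_wv] at h
    by_contra hcon
    have := (hmar i x).2 hcon
    linarith
  have hiff' : ∀ i x, inner ℝ (wv (L.w i)) (vtx x) - (L.b i - η) < 0 →
      ¬ L.b i ≤ lin (L.w i) x := by
    intro i x h hcon
    rw [inner_wv] at h
    have := (hmar i x).1 hcon
    linarith
  refine nn_le_of_realizes f (fun i => wv (L.w i)) (fun i => L.b i - η) L.c L.d hη ?_ ?_ ?_ k u hR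
  · intro i x
    rw [inner_wv]
    by_cases h : L.b i ≤ lin (L.w i) x
    · exact ((hmar i x).1 h).trans (le_abs_self _)
    · have := (hmar i x).2 h
      rw [abs_of_nonpos (by linarith)]
      linarith
  · intro x i hi hj
    exact (hL x).1 i (hiff i x hi) (fun j hji => hiff' j x (hj j hji))
  · intro x hx
    exact (hL x).2 (fun i => hiff' i x (hx i))

/-- **weights orthogonal to a common vector**: the conjectured bound for every depth -/
theorem nn_le_of_orthogonal {n m : ℕ} {f : (Fin n → Bool) → Bool} {L : LDList n m}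
    (hL : L.Computes f) (v : Fin n → ℝ) (hv : v ≠ 0) (hort : ∀ i, ∑ j, L.w i j * v j = 0) :
    NN f ≤ m + 1 := by
  classical
  obtain ⟨η, hη, hmar⟩ := exists_margin L
  set V : E n := wv v with hV
  have hV0 : V ≠ 0 := by
    intro h
    apply hv
    ext j
    have := congrArg (fun y : E n => y j) h
    simpa [hV, wv] using this
  have hVn : 0 < ‖V‖ ^ 2 := by positivity
  have hort' : ∀ i, inner ℝ (wv (L.w i)) V = 0 := by
    intro i
    rw [hV]
    unfold wv
    rw [PiLp.inner_apply, ← hort i]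
    refine Finset.sum_congr rfl fun j _ => ?_
    simp only [RCLike.inner_apply, conj_trivial]
    rw [mul_comm]
  -- a bound for all numbers that occur
  obtain ⟨B, hB, hBb⟩ : ∃ B : ℝ, 0 < B ∧ ∀ i (x : Fin n → Bool),
      |(L.b i - η) * inner ℝ V (vtx x)| ≤ B := by
    rcases isEmpty_or_nonempty (Fin m) with hm | hm
    · exact ⟨1, one_pos, fun i => (hm.false i).elim⟩
    · obtain ⟨p, hp⟩ := Finite.exists_max
        (fun p : Fin m × (Fin n → Bool) => |(L.b p.1 - η) * inner ℝ V (vtx p.2)|)
      refine ⟨|(L.b p.1 - η) * inner ℝ V (vtx p.2)| + 1, by positivity, fun i x => ?_⟩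
      have := hp (i, x)
      simp only at this
      linarith
  set R : ℝ := 4 * B / (η * ‖V‖ ^ 2) with hR
  have hR0 : 0 < R := by positivity
  have h := nn_le_general hL hη hmar (fun _ => 1) (R • V) (fun i => ?_)
  · refine h.trans ?_
    rw [Finset.sum_const, Finset.card_univ, Fintype.card_fin, smul_eq_mul, mul_one, add_comm]
  · set β : ℝ := (L.b i - η) / (R * ‖V‖ ^ 2) with hβ
    refine realizes_one (w' := wv (L.w i) + β • V) hη ?_ ?_
    · rw [inner_add_left, inner_smul_right, inner_smul_right, hort' i, mul_zero, zero_add,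
        inner_smul_left, real_inner_self_eq_norm_sq]
      simp only [conj_trivial]
      rw [hβ]
      field_simp
    · intro x
      rw [inner_add_left, add_sub_cancel_left, inner_smul_left]
      simp only [conj_trivial]
      have h2 : β * inner ℝ V (vtx x) =
          ((L.b i - η) * inner ℝ V (vtx x)) * (1 / (R * ‖V‖ ^ 2)) := by
        rw [hβ]
        ring
      have h3 : (1 / (R * ‖V‖ ^ 2) : ℝ) = η / (4 * B) := by
        rw [hR]
        field_simp
      rw [h2, h3, abs_mul, abs_of_pos (by positivity : 0 < η / (4 * B))]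
      calc |(L.b i - η) * inner ℝ V (vtx x)| * (η / (4 * B)) ≤ B * (η / (4 * B)) :=
            mul_le_mul_of_nonneg_right (hBb i x) (by positivity)
        _ = η / 4 := by field_simp

/-- prescribed scalar products with linearly independent vectors that span -/
lemma exists_inner_eq {n : ℕ} {ι : Type} (v : ι → E n) (hli : LinearIndependent ℝ v)
    (hsp : ⊤ ≤ Submodule.span ℝ (Set.range v)) (g : ι → ℝ) :
    ∃ u : E n, ∀ i, inner ℝ (v i) u = g i := by
  let B := Module.Basis.mk hli hsp
  let φ : E n →ₗ[ℝ] ℝ := B.constr ℝ g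
  refine ⟨(InnerProductSpace.toDual ℝ (E n)).symm (LinearMap.toContinuousLinearMap φ), fun i => ?_⟩
  rw [real_inner_comm, InnerProductSpace.toDual_symm_apply]
  show φ (v i) = g i
  have h1 : v i = B i := by simp [B]
  rw [h1]
  exact B.constr_basis ℝ g i

/-- **spanning weights**: `n - 1` tests need one anchor only, the others two -/
theorem nn_le_of_span {n m : ℕ} {f : (Fin n → Bool) → Bool} {L : LDList n m} (hn : 0 < n)
    (hL : L.Computes f) (hsp : Submodule.span ℝ (Set.range fun i => wv (L.w i)) = ⊤) :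
    NN f + n ≤ 2 * m + 2 := by
  classical
  obtain ⟨η, hη, hmar⟩ := exists_margin L
  set j0 : Fin n := ⟨0, hn⟩ with hj0
  set e : E n := EuclideanSpace.single j0 (1 : ℝ) with he
  let v : Option (Fin m) → E n := fun o => Option.elim o e (fun i => wv (L.w i))
  have he0 : e ≠ 0 := by
    intro h
    have := congrArg (fun y : E n => y j0) h
    simp [he] at this
  have hli0 : LinearIndepOn ℝ v {none} := by
    rw [linearIndepOn_singleton_iff]
    exact he0
  obtain ⟨S, -, hnS, hspS, hliS⟩ := exists_linearIndepOn_extension hli0 (Set.subset_univ _)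
  have hS0 : none ∈ S := hnS rfl
  have htop : ⊤ ≤ Submodule.span ℝ (v '' S) := by
    rw [← hsp, Submodule.span_le]
    rintro _ ⟨i, rfl⟩
    exact hspS ⟨some i, Set.mem_univ _, rfl⟩
  have hrange : Set.range (fun x : S => v x) = v '' S := by
    ext y
    simp
  have htop' : ⊤ ≤ Submodule.span ℝ (Set.range fun x : S => v x) := by rwa [hrange]
  -- the tests with one anchor
  set I : Finset (Fin m) := Finset.univ.filter (fun i => some i ∈ S) with hI
  have hcard : Fintype.card S = n := by
    let B := Module.Basis.mk hliS htop'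
    have h1 := Module.finrank_eq_card_basis B
    rw [finrank_euclideanSpace, Fintype.card_fin] at h1
    exact h1.symm
  have hIcard : I.card + 1 = n := by
    have h1 : (Finset.univ.filter (fun o : Option (Fin m) => o ∈ S)).card = n := by
      rw [← hcard, Fintype.card_subtype]
    have h2 : Finset.univ.filter (fun o : Option (Fin m) => o ∈ S) = insertNone I := by
      ext o
      cases o with
      | none => simp [hS0]
      | some i => simp [hI]
    rw [h2, card_insertNone] at h1
    exact h1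
  obtain ⟨u, hu⟩ := exists_inner_eq (fun x : S => v x) hliS htop'
    (fun x => Option.elim (x : Option (Fin m)) (1 / 2) (fun i => L.b i - η))
  have hu0 : u j0 = 1 / 2 := by
    have h1 := hu ⟨none, hS0⟩
    have h2 : inner ℝ e u = u j0 := by
      rw [he, EuclideanSpace.inner_single_left]
      simp
    rw [← h2]
    exact h1
  have h := nn_le_general hL hη hmar (fun i => if i ∈ I then 1 else 2) u (fun i => ?_)
  · have h1 : ∑ i : Fin m, (if i ∈ I then 1 else 2) + I.card = 2 * m := by
      have h2 : ∀ i : Fin m, (if i ∈ I then 1 else 2) + (if i ∈ I then 1 else 0) = 2 := by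
        intro i
        by_cases hi : i ∈ I <;> simp [hi]
      have h3 : I.card = ∑ i : Fin m, (if i ∈ I then 1 else 0) := by simp
      rw [h3, ← Finset.sum_add_distrib, Finset.sum_congr rfl (fun i _ => h2 i)]
      simp [mul_comm]
    omega
  · show Realizes u (wv (L.w i)) (L.b i - η) (if i ∈ I then 1 else 2) η
    by_cases hi : i ∈ I
    · rw [if_pos hi]
      have hiS : some i ∈ S := (Finset.mem_filter.1 hi).2
      refine realizes_one (w' := wv (L.w i)) hη (hu ⟨some i, hiS⟩) (fun x => ?_)
      rw [sub_self, abs_zero]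
      positivity
    · rw [if_neg hi]
      exact realizes_two j0 hu0 _ _ hη

/-- two anchors for every test -/
theorem nn_le_two {n m : ℕ} {f : (Fin n → Bool) → Bool} {L : LDList n m} (hn : 0 < n)
    (hL : L.Computes f) : NN f ≤ 2 * m + 1 := by
  obtain ⟨η, hη, hmar⟩ := exists_margin L
  have h := nn_le_general hL hη hmar (fun _ => 2) (WithLp.toLp 2 (fun _ => (1 / 2 : ℝ)))
    (fun i => realizes_two ⟨0, hn⟩ rfl _ _ hη)
  refine h.trans ?_
  rw [Finset.sum_const, Finset.card_univ, Fintype.card_fin, smul_eq_mul]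
  omega

/-- every Boolean function has a linear decision list -/
lemma exists_list {n : ℕ} (f : (Fin n → Bool) → Bool) : ∃ m, ∃ L : LDList n m, L.Computes f := by
  classical
  let e := Fintype.equivFin (Fin n → Bool)
  let w : (Fin n → Bool) → Fin n → ℝ := fun y j => if y j then 1 else -1
  let b : (Fin n → Bool) → ℝ := fun y => ∑ j, if y j then (1 : ℝ) else 0
  have hkey : ∀ y x : Fin n → Bool, b y ≤ lin (w y) x ↔ y = x := by
    intro y x
    have hle : ∀ j, w y j * (if x j then 1 else 0) ≤ if y j then (1 : ℝ) else 0 := by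
      intro j
      simp only [w]
      cases x j <;> cases y j <;> simp
    constructor
    · intro h
      by_contra hne
      obtain ⟨j, hj⟩ : ∃ j, y j ≠ x j := by
        by_contra hcon
        push Not at hcon
        exact hne (funext hcon)
      have hlt : lin (w y) x < b y := by
        refine Finset.sum_lt_sum (fun j _ => hle j) ⟨j, Finset.mem_univ _, ?_⟩
        simp only [w]
        revert hj
        cases x j <;> cases y j <;> simp
      linarith
    · rintro rfl
      refine Finset.sum_le_sum fun j _ => ?_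
      simp only [w]
      cases y j <;> simp
  refine ⟨Fintype.card (Fin n → Bool), ⟨fun i => w (e.symm i), fun i => b (e.symm i),
    fun i => f (e.symm i), false⟩, fun x => ⟨fun i hi _ => ?_, fun h => ?_⟩⟩
  · have h1 := (hkey _ _).1 hi
    show f x = f (e.symm i)
    rw [h1]
  · exfalso
    refine h (e x) ((hkey _ _).2 ?_)
    exact e.symm_apply_apply x

lemma exists_optimal {n : ℕ} (f : (Fin n → Bool) → Bool) : ∃ L : LDList n (LDL f), L.Computes f :=
  Nat.sInf_mem (exists_list f)

end Pool.Agent.H24NN
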